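import Pool.Agent.Work.MP_8b9f13_co.Ex12

namespace Pool.Agent.Results.MP_8b9f13_co.NotLogConcave

open Pool.Agent.Work.MP_8b9f13_co

/-- There are two semilabelled binary trees of size 12 whose sequence of non-trivial common
partition counts is not log-concave. -/
theorem result : ∃ T F : SBTree 12, ¬ IsLogConcave 12 (common T F) := by
  refine ⟨Ex12.treeT, Ex12.treeF, fun h => ?_⟩
  have h8 := h 8 (by norm_num) (by norm_num)
  rw [show 8 - 1 = 7 from rfl, show 8 + 1 = 9 from rfl, Ex12.val7, Ex12.val8, Ex12.val9] at h8
  norm_num at h8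

end Pool.Agent.Results.MP_8b9f13_co.NotLogConcave
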