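import Pool.Agent.Work.MP_8b9f13_co.Ex16

namespace Pool.Agent.Results.MP_8b9f13_co.NotUnimodal

open Pool.Agent.Work.MP_8b9f13_co

/-- There are two semilabelled binary trees of size 16 whose sequence of non-trivial common
partition counts is not unimodal. -/
theorem result : ∃ T F : SBTree 16, ¬ IsUnimodal 16 (common T F) := by
  refine ⟨Ex16.treeT, Ex16.treeF, ?_⟩
  rintro ⟨m, _, _, h3, h4⟩
  rcases Nat.lt_or_ge 11 m with h | h
  · have := h3 10 (by norm_num) (by omega)
    rw [show 10 + 1 = 11 from rfl, Ex16.val10, Ex16.val11] at this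
    omega
  · have := h4 11 h (by norm_num)
    rw [show 11 + 1 = 12 from rfl, Ex16.val12, Ex16.val11] at this
    omega

end Pool.Agent.Results.MP_8b9f13_co.NotUnimodal
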